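import Pool.Agent.Helper40.TP.Defs
import Pool.Agent.Helper40.TF.Poly

/-!
PROJECT TP. Port of TF/Poly to infinite fields.
-/

set_option autoImplicit false

namespace Pool.Agent.Helper40.TP

open Finset
open Pool.Agent.Helper40.TF

variable {K V : Type*} [Field K] [Infinite K] [AddCommGroup V] [Module K V]

theorem coeff_zero (N : ℕ) (p : ℕ → V) (h : ∀ t : K, t ≠ 0 → ∑ i ∈ range N, t ^ i • p i = 0) :
    ∀ i < N, p i = 0 := by
  intro i hi
  rw [← Module.forall_dual_apply_eq_zero_iff K]
  intro φ
  have hz : (∑ j ∈ range N, Polynomial.C (φ (p j)) * Polynomial.X ^ j : Polynomial K) = 0 := by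
    apply Polynomial.eq_zero_of_infinite_isRoot
    refine Set.Infinite.mono (s := {x : K | x ≠ 0}) ?_ ?_
    · intro t ht
      show Polynomial.eval t _ = 0
      have h1 := congrArg φ (h t ht)
      rw [map_sum, map_zero] at h1
      rw [Polynomial.eval_finsetSum, ← h1]
      refine Finset.sum_congr rfl fun j _ => ?_
      rw [map_smul, smul_eq_mul, Polynomial.eval_mul, Polynomial.eval_C, Polynomial.eval_pow,
        Polynomial.eval_X, mul_comm]
    · have : ({x : K | x ≠ 0} : Set K) = ({0} : Set K)ᶜ := rfl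
      rw [this]
      exact (Set.finite_singleton (0 : K)).infinite_compl
  have h2 := congrArg (fun q => Polynomial.coeff q i) hz
  simp only [Polynomial.finsetSum_coeff, Polynomial.coeff_C_mul_X_pow, Polynomial.coeff_zero] at h2
  rw [Finset.sum_ite_eq, if_pos (Finset.mem_range.2 hi)] at h2
  exact h2

theorem coeff_mem (N : ℕ) (p : ℕ → V) (S : Submodule K V) (h : ∀ t : K, ∑ i ∈ range N, t ^ i • p i ∈ S) :
    ∀ i < N, p i ∈ S := by
  intro i hi
  have h1 := coeff_zero (K := K) N (fun j => S.mkQ (p j)) (fun t _ => by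
    have h2 : S.mkQ (∑ i ∈ range N, t ^ i • p i) = 0 := by
      rw [Submodule.mkQ_apply, Submodule.Quotient.mk_eq_zero]
      exact h t
    rw [map_sum] at h2
    rw [← h2]
    refine Finset.sum_congr rfl fun j _ => ?_
    rw [map_smul]) i hi
  rw [Submodule.mkQ_apply, Submodule.Quotient.mk_eq_zero] at h1
  exact h1

theorem IsP.zero_at (f : K → V) (hf : IsP f) (h : ∀ t, t ≠ 0 → f t = 0) : f 0 = 0 := by
  obtain ⟨N, p, hp⟩ := hf
  have h1 := coeff_zero (K := K) N p (fun t ht => by rw [← hp t]; exact h t ht)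
  rw [hp 0]
  refine Finset.sum_eq_zero fun i hi => ?_
  rw [h1 i (Finset.mem_range.1 hi), smul_zero]

theorem ev_inj {A : Type*} [Ring A] [Algebra K A] (P : Polynomial A) (h : ∀ t : K, ev K t P = 0) : P = 0 := by
  have h1 := coeff_zero (K := K) (P.natDegree + 1) (fun i => P.coeff i) (fun t _ => by
    have h2 : Polynomial.eval₂ (RingHom.id A) (algebraMap K A t) P = 0 := h t
    rw [Polynomial.eval₂_eq_sum_range] at h2
    rw [← h2]
    refine Finset.sum_congr rfl fun i _ => ?_
    rw [RingHom.id_apply, ← map_pow, Algebra.smul_def, Algebra.commutes])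
  have h3 := h1 P.natDegree (Nat.lt_succ_self _)
  exact Polynomial.leadingCoeff_eq_zero.1 h3

end Pool.Agent.Helper40.TP
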