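import Pool.Agent.Helper40.TF.Defs

/-!
PROJECT TP (MP_629dac_al), upgrade of TF: the excluded primes depend on `n` only. Memo /team-store/memo_TP_helper40.md.
The modules TF (proved for fields of characteristic 0) are ported to infinite fields in which small natural numbers are invertible.
-/

set_option autoImplicit false

namespace Pool.Agent.Helper40.TP

/-- The natural numbers `1, …, P` are nonzero in `K`. -/
def Inv (K : Type*) [Field K] (P : ℕ) : Prop := ∀ m : ℕ, 0 < m → m ≤ P → (m : K) ≠ 0

theorem Inv.mono {K : Type*} [Field K] {P Q : ℕ} (h : Inv K P) (hQ : Q ≤ P) : Inv K Q :=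
  fun m h1 h2 => h m h1 (h2.trans hQ)

theorem Inv.factorial {K : Type*} [Field K] {P : ℕ} (h : Inv K P) (k : ℕ) (hk : k ≤ P) : (k.factorial : K) ≠ 0 := by
  induction k with
  | zero => simp
  | succ k ih =>
    rw [Nat.factorial_succ, Nat.cast_mul]
    exact mul_ne_zero (h _ (Nat.succ_pos k) hk) (ih (by omega))

theorem Inv.of_charZero (K : Type*) [Field K] [CharZero K] (P : ℕ) : Inv K P :=
  fun _ h1 _ => Nat.cast_ne_zero.mpr (by omega)

theorem Inv.of_char (K : Type*) [Field K] (p : ℕ) [hp : Fact p.Prime] [CharP K p] (P : ℕ) (h : P < p) : Inv K P := by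
  intro m h1 h2 h3
  rw [CharP.cast_eq_zero_iff K p] at h3
  exact absurd (Nat.le_of_dvd h1 h3) (by omega)

/-- All prime factors of a natural number below `P` are below `P`; used for binomial coefficients. -/
theorem Inv.of_dvd_factorial {K : Type*} [Field K] {P : ℕ} (h : Inv K P) (k m : ℕ) (hk : k ≤ P)
    (hm : m ∣ k.factorial) : (m : K) ≠ 0 := by
  intro h0
  obtain ⟨c, hc⟩ := hm
  exact h.factorial k hk (by rw [hc, Nat.cast_mul, h0, zero_mul])

theorem Inv.choose {K : Type*} [Field K] {P : ℕ} (h : Inv K P) (k j : ℕ) (hk : k ≤ P) (hj : j ≤ k) :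
    (k.choose j : K) ≠ 0 := by
  apply h.of_dvd_factorial k _ hk
  exact ⟨j.factorial * (k - j).factorial, by rw [← mul_assoc, Nat.choose_mul_factorial_mul_factorial hj]⟩

end Pool.Agent.Helper40.TP
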