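import Pool.Agent.Helper39.TF.Polar

/-!
PROJECT TP. Port of Helper39/TF/Polar (proof of helper39) to infinite fields with `3 ≠ 0`.
-/

set_option autoImplicit false

namespace Pool.Agent.Helper40.TP.J

open Finset Pool.Agent.Helper39.TF

theorem coeff_zero {K V : Type*} [Field K] [Infinite K] [AddCommGroup V] [Module K V] (N : ℕ)
    (v : ℕ → V) (h : ∀ t : K, ∑ j ∈ range N, t ^ j • v j = 0) (j : ℕ) (hj : j < N) : v j = 0 := by
  rw [← Module.forall_dual_apply_eq_zero_iff K]
  intro f
  let p : Polynomial K := ∑ i ∈ range N, Polynomial.C (f (v i)) * Polynomial.X ^ i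
  have hp : p = 0 := by
    apply Polynomial.funext
    intro t
    have h1 := congrArg f (h t)
    rw [map_sum, map_zero] at h1
    rw [Polynomial.eval_zero, ← h1, Polynomial.eval_finsetSum]
    refine Finset.sum_congr rfl fun i _ => ?_
    rw [map_smul, Polynomial.eval_mul, Polynomial.eval_C, Polynomial.eval_pow, Polynomial.eval_X,
      smul_eq_mul, mul_comm]
  have h2 : p.coeff j = f (v j) := by
    simp only [p, Polynomial.finsetSum_coeff, Polynomial.coeff_C_mul_X_pow]
    rw [Finset.sum_eq_single j]
    · simp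
    · intro i _ hij
      rw [if_neg (Ne.symm hij)]
    · intro h3
      exact absurd (Finset.mem_range.mpr hj) h3
  rw [← h2, hp, Polynomial.coeff_zero]

/-- the coefficient of `t` in `(α + t β) ^ n (u + t v)` -/
theorem first_coeff {K V : Type*} [Field K] [Infinite K] [AddCommGroup V] [Module K V]
    (α β : Module.End K V) (u v : V) (n : ℕ)
    (h : ∀ t : K, ((α + t • β) ^ n) (u + t • v) = 0) :
    cf α β n 1 u + cf α β n 0 v = 0 := by
  let c : ℕ → V := fun j => match j with
    | 0 => cf α β n 0 u
    | (i + 1) => cf α β n (i + 1) u + cf α β n i v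
  have hc : ∀ t : K, ∑ j ∈ range (n + 2), t ^ j • c j = 0 := by
    intro t
    rw [← h t, pow_expand, Finset.sum_range_succ' (fun j => t ^ j • c j) (n + 1)]
    have e3 : ∀ j, t ^ (j + 1) • c (j + 1)
        = t ^ (j + 1) • (cf α β n (j + 1) u) + t ^ (j + 1) • (cf α β n j v) := fun j => by
      rw [← smul_add]
    simp only [e3, Finset.sum_add_distrib]
    have e4 : ∑ j ∈ range (n + 1), t ^ (j + 1) • (cf α β n (j + 1) u)
        + t ^ 0 • (cf α β n 0 u) = ∑ j ∈ range (n + 1), t ^ j • (cf α β n j u) := by
      rw [← Finset.sum_range_succ' (fun j => t ^ j • (cf α β n j u)) (n + 1),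
        Finset.sum_range_succ, cf_big α β n (n + 1) (by omega)]
      simp
    have e5 : (∑ j ∈ range (n + 1), t ^ j • cf α β n j) (u + t • v)
        = ∑ j ∈ range (n + 1), t ^ j • (cf α β n j u)
          + ∑ j ∈ range (n + 1), t ^ (j + 1) • (cf α β n j v) := by
      rw [LinearMap.sum_apply, ← Finset.sum_add_distrib]
      refine Finset.sum_congr rfl fun j _ => ?_
      rw [LinearMap.smul_apply, map_add, map_smul, smul_add, smul_smul, pow_succ]
    rw [e5, ← e4]
    change _ + t ^ 0 • (cf α β n 0 u) = _
    abel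
  exact coeff_zero (n + 2) c hc 1 (by omega)

end Pool.Agent.Helper40.TP.J
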