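import Pool.Agent.Helper40.TP.Close
import Pool.Agent.Helper40.TF.Limit

/-!
PROJECT TP. Port of Helper40/TF/Limit to infinite fields in which `1, .., 4 N` are invertible.
-/

set_option autoImplicit false

namespace Pool.Agent.Helper40.TP

open Pool.Agent.Helper40.TF

open Finset LieAlgebra

variable {K L ι : Type*} [Field K] [Infinite K] [LieRing L] [LieAlgebra K L]

omit [Infinite K] in
private lemma lm_conj_pow {A : Type*} [Ring A] (u u' a : A) (h1 : u * u' = 1) (h2 : u' * u = 1)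
    (k : ℕ) : (u * a * u') ^ k = u * a ^ k * u' := by
  induction k with
  | zero => rw [pow_zero, pow_zero, mul_one, h1]
  | succ k ih =>
    rw [pow_succ, ih, pow_succ]
    calc u * a ^ k * u' * (u * a * u') = u * a ^ k * (u' * u) * a * u' := by noncomm_ring
      _ = u * (a ^ k * a) * u' := by rw [h2]; noncomm_ring

omit [Infinite K] in
private lemma lm_exp (E : Module.End K L) (M N : ℕ) (hMN : M + 1 ≤ N) (h0 : E ^ (M + 1) = 0)
    (κ : K) (z : L) :
    ex K N (κ⁻¹ • E) z = ∑ k ∈ range (M + 1), (κ⁻¹) ^ k • (((k.factorial : K)⁻¹) • (E ^ k) z) := by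
  have h1 : (κ⁻¹ • E) ^ (M + 1) = 0 := by rw [smul_pow, h0, smul_zero]
  rw [ex_trunc (M + 1) N hMN (κ⁻¹ • E) h1]
  unfold ex
  rw [LinearMap.sum_apply]
  refine Finset.sum_congr rfl fun k _ => ?_
  rw [smul_pow, LinearMap.smul_apply, LinearMap.smul_apply, smul_comm]

omit [Infinite K] in
private lemma lm_term (κ : K) (hκ : κ ≠ 0) (σ : K) (j n : ℕ) (hn : n ≤ j + 1) (a : ℕ → L) :
    (σ * κ ^ j) • ∑ k ∈ range n, (κ⁻¹) ^ k • a k = σ • ∑ k ∈ range n, κ ^ (j - k) • a k := by
  rw [mul_smul, Finset.smul_sum]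
  congr 1
  refine Finset.sum_congr rfl fun k hk => ?_
  rw [Finset.mem_range] at hk
  rw [smul_smul, pow_sub₀ κ hκ (by omega), inv_pow]

omit [Infinite K] in
private lemma lm_fix (E : Module.End K L) (x : L) (hx : E x = 0) (M : ℕ) (κ : K) :
    ∑ k ∈ range (M + 1), (κ⁻¹) ^ k • (((k.factorial : K)⁻¹) • (E ^ k) x) = x := by
  rw [Finset.sum_range_succ', Finset.sum_eq_zero, zero_add]
  · simp
  · intro k _
    rw [pow_succ E, Module.End.mul_apply, hx, map_zero, smul_zero, smul_zero]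

theorem limit (N : ℕ) [hP : Fact (Inv K (4 * N))] (hN : 1 ≤ N) (n : ℕ) (X : ι → L) (hX : ∀ i, ad K L (X i) ^ N = 0)
    (i : ι) (hE : ERel K N n (fun i => ad K L (X i)) (ad K L (X i))) (M : ℕ) (hM : 2 ≤ M) (hMN : M + 1 ≤ N)
    (h0 : ad K L (X i) ^ (M + 1) = 0) (c : L) (hc : Path K N X c) (s : K) :
    ad K L (X i + lim K (X i) M c s) ^ N = 0 ∧
      ERel K N n (fun i => ad K L (X i)) (ad K L (X i + lim K (X i) M c s)) := by
  obtain ⟨l, m, P, P', hP, -, hl, -⟩ := hc
  obtain ⟨x, hx⟩ : ∃ x, x = X i := ⟨_, rfl⟩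
  obtain ⟨E, hEd⟩ : ∃ E, E = ad K L x := ⟨_, rfl⟩
  have hEx : E x = 0 := by rw [hEd, ad_apply, lie_self]
  have hE1 : E ^ (M + 1) = 0 := by rw [hEd, hx]; exact h0
  obtain ⟨v, hv⟩ : ∃ v : L, v = ⁅c, x⁆ := ⟨_, rfl⟩
  obtain ⟨r, hr⟩ : ∃ r : L, r = (2 : K)⁻¹ • ⁅c, ⁅c, x⁆⁆ + ⁅m, x⁆ := ⟨_, rfl⟩
  obtain ⟨b', hb'⟩ : ∃ b' : K → L, b' = fun κ => x
      + s • (∑ k ∈ range M, κ ^ (M - 1 - k) • (((k.factorial : K)⁻¹) • (E ^ k) v))
      + s ^ 2 • (∑ k ∈ range (M + 1), κ ^ (2 * M - 2 - k) • (((k.factorial : K)⁻¹) • (E ^ k) r))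
      + s ^ 3 • (∑ k ∈ range (M + 1), κ ^ (3 * M - 3 - k) • (((k.factorial : K)⁻¹) •
          (E ^ k) (P (s * κ ^ (M - 1)) x))) := ⟨_, rfl⟩
  have hv0 : (E ^ M) v = 0 := by
    have h2 : v = -(E c) := by rw [hv, hEd, ad_apply, lie_skew]
    rw [h2, map_neg, ← Module.End.mul_apply, ← pow_succ, hE1, LinearMap.zero_apply, neg_zero]
  have hbP : IsP b' := by
    rw [hb']
    refine IsP.add _ _ (IsP.add _ _ (IsP.add _ _ (IsP.const x) ?_) ?_) ?_
    · refine IsP.smul s _ (IsP.sum _ _ fun k _ => ?_)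
      exact IsP.pow_smul _ _ (IsP.const _)
    · refine IsP.smul _ _ (IsP.sum _ _ fun k _ => ?_)
      exact IsP.pow_smul _ _ (IsP.const _)
    · refine IsP.smul _ _ (IsP.sum _ _ fun k _ => ?_)
      refine IsP.pow_smul _ _ (IsP.smul _ _ ?_)
      refine IsP.lin (E ^ k : L →ₗ[K] L) (fun κ => P (s * κ ^ (M - 1)) x) ?_
      refine IsP.lin (LinearMap.applyₗ x : (L →ₗ[K] L) →ₗ[K] L) (fun κ => P (s * κ ^ (M - 1))) ?_
      exact IsP.comp_pow s (M - 1) P hP
  have hb : ∀ κ : K, κ ≠ 0 → b' κ = pr K N (fun i => ad K L (X i))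
      ([(i, κ⁻¹)] ++ l (s * κ ^ (M - 1))) x := by
    intro κ hκ
    have e0 : pr K N (fun i => ad K L (X i)) [(i, κ⁻¹)] = ex K N (κ⁻¹ • E) := by
      rw [hEd, hx]
      simp [pr]
    rw [pr_append, Module.End.mul_apply, e0, hl]
    have e1 : (1 + (s * κ ^ (M - 1)) • ad K L c + (s * κ ^ (M - 1)) ^ 2 •
        ((2 : K)⁻¹ • ad K L c ^ 2 + ad K L m) + (s * κ ^ (M - 1)) ^ 3 • P (s * κ ^ (M - 1)) :
          Module.End K L) x
        = x + (s * κ ^ (M - 1)) • v + (s ^ 2 * κ ^ (2 * M - 2)) • r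
          + (s ^ 3 * κ ^ (3 * M - 3)) • P (s * κ ^ (M - 1)) x := by
      have p2 : (s * κ ^ (M - 1)) ^ 2 = s ^ 2 * κ ^ (2 * M - 2) := by
        rw [mul_pow, ← pow_mul]
        congr 2
        omega
      have p3 : (s * κ ^ (M - 1)) ^ 3 = s ^ 3 * κ ^ (3 * M - 3) := by
        rw [mul_pow, ← pow_mul]
        congr 2
        omega
      rw [← p2, ← p3, hv, hr]
      simp only [LinearMap.add_apply, LinearMap.smul_apply, Module.End.one_apply, pow_two (ad K L c),
        Module.End.mul_apply, ad_apply]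
    rw [e1, map_add, map_add, map_add, map_smul, map_smul, map_smul,
      lm_exp E M N hMN hE1 κ x, lm_exp E M N hMN hE1 κ v, lm_exp E M N hMN hE1 κ r,
      lm_exp E M N hMN hE1 κ (P (s * κ ^ (M - 1)) x), lm_fix E x hEx M κ,
      Finset.sum_range_succ (fun k => (κ⁻¹) ^ k • (((k.factorial : K)⁻¹) • (E ^ k) v)) M, hv0,
      smul_zero, smul_zero, add_zero, lm_term κ hκ s (M - 1) M (by omega),
      lm_term κ hκ (s ^ 2) (2 * M - 2) (M + 1) (by omega),
      lm_term κ hκ (s ^ 3) (3 * M - 3) (M + 1) (by omega), hb']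
  have hmain := erel_limit N n (fun i => ad K L (X i)) (fun κ => ad K L (b' κ))
    (IsP.lin (ad K L : L →ₗ[K] Module.End K L) b' hbP) (by
      intro κ hκ
      rw [hb κ hκ, ad_pr N hN X hX,
        lm_conj_pow _ _ _ (pr_inv N hN _ hX _) (inv_pr N hN _ hX _), hx, hX i, mul_zero, zero_mul])
    (by
      intro κ hκ
      rw [hb κ hκ, hx]
      exact erel_conj_ad N hN n X hX (X i) hE _)
  have hz : b' 0 = X i + lim K (X i) M c s := by
    rw [hb']
    simp only
    have s1 : ∑ k ∈ range M, (0 : K) ^ (M - 1 - k) • (((k.factorial : K)⁻¹) • (E ^ k) v)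
        = (E ^ M) (-(((M - 1).factorial : K)⁻¹) • c) := by
      rw [Finset.sum_eq_single (M - 1)]
      · rw [Nat.sub_self, pow_zero, one_smul]
        have h2 : v = -(E c) := by rw [hv, hEd, ad_apply, lie_skew]
        have h3 : E ^ M = E ^ (M - 1) * E := by
          rw [← pow_succ]
          congr 1
          omega
        rw [h2, h3, Module.End.mul_apply, map_smul, map_smul, map_neg, smul_neg, neg_smul]
      · intro k hk hne
        rw [Finset.mem_range] at hk
        rw [zero_pow (by omega), zero_smul]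
      · intro h
        exfalso
        apply h
        rw [Finset.mem_range]
        omega
    have s2 : ∑ k ∈ range (M + 1), (0 : K) ^ (2 * M - 2 - k) • (((k.factorial : K)⁻¹) • (E ^ k) r)
        = (E ^ M) (if M = 2 then -((4 : K)⁻¹) • ⁅c, ⁅x, c⁆⁆ else 0) := by
      by_cases hM2 : M = 2
      · subst hM2
        rw [if_pos rfl, Finset.sum_eq_single 2]
        · have h5 : r = -((2 : K)⁻¹ • ⁅c, ⁅x, c⁆⁆) - E m := by
            rw [hr, hEd, ad_apply, ← lie_skew x c, ← lie_skew x m, lie_neg, smul_neg]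
            abel
          have h6 : (E ^ 2) (E m) = 0 := by
            rw [← Module.End.mul_apply, ← pow_succ, hE1, LinearMap.zero_apply]
          rw [h5, map_sub, h6, sub_zero, map_neg, map_smul, map_smul]
          norm_num [Nat.factorial]
          rw [smul_smul, ← mul_inv]
          norm_num
        · intro k hk hne
          rw [Finset.mem_range] at hk
          rw [zero_pow (by omega), zero_smul]
        · intro h
          exfalso
          apply h
          rw [Finset.mem_range]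
          omega
      · rw [if_neg hM2, map_zero]
        apply Finset.sum_eq_zero
        intro k hk
        rw [Finset.mem_range] at hk
        rw [zero_pow (by omega), zero_smul]
    have s3 : ∑ k ∈ range (M + 1), (0 : K) ^ (3 * M - 3 - k) • (((k.factorial : K)⁻¹) •
          (E ^ k) (P (s * 0 ^ (M - 1)) x)) = 0 := by
      apply Finset.sum_eq_zero
      intro k hk
      rw [Finset.mem_range] at hk
      rw [zero_pow (by omega), zero_smul]
    rw [s1, s2, s3, smul_zero, add_zero, add_assoc, hEd, hx]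
    rfl
  rw [← hz]
  exact hmain

end Pool.Agent.Helper40.TP
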