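import Pool.Agent.Helper40.TP.Defs

/-!
PROJECT TP. Port of Helper40/TF/Trick to infinite fields in which `1, .., 4 N` are invertible.
-/

set_option autoImplicit false

namespace Pool.Agent.Helper40.TP

open Pool.Agent.Helper40.TF

open Finset LieAlgebra

variable {K L : Type*} [Field K] [LieRing L] [LieAlgebra K L]

private def tD {A : Type*} [Ring A] [Algebra K A] (E : A) : Module.End K A :=
  LinearMap.mulLeft K E - LinearMap.mulRight K E

private lemma tD_apply {A : Type*} [Ring A] [Algebra K A] (E Z : A) :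
    tD (K := K) E Z = E * Z - Z * E := rfl

private lemma tD_mul {A : Type*} [Ring A] [Algebra K A] (E a b : A) :
    tD (K := K) E (a * b) = tD (K := K) E a * b + a * tD (K := K) E b := by
  simp only [tD_apply]
  noncomm_ring

private lemma tD_pow {A : Type*} [Ring A] [Algebra K A] (E : A) (m : ℕ) (Z : A) :
    (tD (K := K) E ^ m) Z = ∑ ij ∈ antidiagonal m,
      m.choose ij.1 • ((-1 : K) ^ ij.2 • (E ^ ij.1 * Z * E ^ ij.2)) := by
  have hc : Commute (LinearMap.mulLeft K E) (-(LinearMap.mulRight K E)) :=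
    Commute.neg_right (LinearMap.commute_mulLeft_right (R := K) E E)
  rw [tD, sub_eq_add_neg, hc.add_pow', LinearMap.sum_apply]
  refine Finset.sum_congr rfl fun ij _ => ?_
  have h1 : ((-(LinearMap.mulRight K E)) ^ ij.2) Z = (-1 : K) ^ ij.2 • (Z * E ^ ij.2) := by
    generalize ij.2 = n
    induction n with
    | zero => simp
    | succ n ih =>
      rw [pow_succ', Module.End.mul_apply, ih, LinearMap.neg_apply, map_smul,
        LinearMap.mulRight_apply, pow_succ (-1 : K), mul_smul, pow_succ E, mul_assoc]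
      simp
  rw [LinearMap.smul_apply, Module.End.mul_apply, h1, map_smul, LinearMap.pow_mulLeft,
    LinearMap.mulLeft_apply, mul_assoc]

private lemma tD_leib {A : Type*} [Ring A] [Algebra K A] (E : A) (m : ℕ) (a b : A) :
    (tD (K := K) E ^ m) (a * b) = ∑ ij ∈ antidiagonal m,
      m.choose ij.1 • ((tD (K := K) E ^ ij.1) a * (tD (K := K) E ^ ij.2) b) := by
  induction m with
  | zero => simp
  | succ n ih =>
    rw [sum_antidiagonal_choose_succ_nsmul
      (fun i j => (tD (K := K) E ^ i) a * (tD (K := K) E ^ j) b) n,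
      pow_succ', Module.End.mul_apply, ih, map_sum, ← sum_add_distrib]
    refine Finset.sum_congr rfl fun ij hij => ?_
    have hs : n.choose ij.2 = n.choose ij.1 :=
      Nat.choose_symm_of_eq_add ((HasAntidiagonal.mem_antidiagonal.1 hij).symm.trans
        (add_comm _ _))
    rw [map_nsmul, tD_mul, pow_succ' _ ij.1, pow_succ' _ ij.2, Module.End.mul_apply,
      Module.End.mul_apply, nsmul_add, add_comm, hs]

private lemma tD_ad (X : L) (j : ℕ) (g : L) :
    (tD (K := K) (ad K L X) ^ j) (ad K L g) = ad K L ((ad K L X ^ j) g) := by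
  induction j with
  | zero => simp
  | succ n ih =>
    rw [pow_succ', Module.End.mul_apply, ih, tD_apply, pow_succ' (ad K L X), Module.End.mul_apply]
    generalize (ad K L X ^ n) g = y
    ext z
    simp only [LinearMap.sub_apply, Module.End.mul_apply, LieAlgebra.ad_apply]
    rw [lie_lie]

private lemma tp0 {A : Type*} [Ring A] {E : A} {M : ℕ} (h0 : E ^ (M + 1) = 0) {k : ℕ}
    (hk : M < k) : E ^ k = 0 := pow_eq_zero_of_le hk h0

private lemma tD_ad0 (X : L) {M : ℕ} (h0 : ad K L X ^ (M + 1) = 0) {j : ℕ} (hj : M < j) (g : L) :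
    (tD (K := K) (ad K L X) ^ j) (ad K L g) = 0 := by
  rw [tD_ad, tp0 h0 hj, LinearMap.zero_apply, map_zero]

private lemma tD_2M {A : Type*} [Ring A] [Algebra K A] {E : A} {M : ℕ} (h0 : E ^ (M + 1) = 0)
    (Z : A) : (tD (K := K) E ^ (2 * M)) Z =
      (2 * M).choose M • ((-1 : K) ^ M • (E ^ M * Z * E ^ M)) := by
  rw [tD_pow, Finset.sum_eq_single (M, M)]
  · rintro ⟨i, j⟩ hij hne
    rw [HasAntidiagonal.mem_antidiagonal] at hij
    simp only at hij ⊢
    rcases lt_trichotomy i M with h | h | h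
    · have hj : M < j := by omega
      rw [tp0 h0 hj]; simp
    · exact absurd (Prod.ext h (by simp only; omega)) hne
    · rw [tp0 h0 h]; simp
  · intro h
    exact absurd (HasAntidiagonal.mem_antidiagonal.2 (by simp only; omega)) h

private lemma tcancel {V : Type*} [AddCommGroup V] [Module K V] {P n k : ℕ} (hI : Inv K P) (hn : n ≤ P) (hk : k ≤ n)
    {u v : V} (h : n.choose k • u = n.choose k • v) : u = v := by
  have hc : ((n.choose k : ℕ) : K) ≠ 0 := hI.choose n k hn hk
  rw [← Nat.cast_smul_eq_nsmul K, ← Nat.cast_smul_eq_nsmul K] at h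
  exact smul_right_injective V hc h

private lemma tD_gh (X : L) {M : ℕ} (h0 : ad K L X ^ (M + 1) = 0) (g h : L) :
    (tD (K := K) (ad K L X) ^ (2 * M)) (ad K L g * ad K L h) =
      (2 * M).choose M • (ad K L ((ad K L X ^ M) g) * ad K L ((ad K L X ^ M) h)) := by
  rw [tD_leib, Finset.sum_eq_single (M, M)]
  · simp only [tD_ad]
  · rintro ⟨i, j⟩ hij hne
    rw [HasAntidiagonal.mem_antidiagonal] at hij
    simp only at hij ⊢
    rcases lt_trichotomy i M with h | h | h
    · have hj : M < j := by omega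
      rw [tD_ad0 X h0 hj]; simp
    · exact absurd (Prod.ext h (by simp only; omega)) hne
    · rw [tD_ad0 X h0 h]; simp
  · intro h
    exact absurd (HasAntidiagonal.mem_antidiagonal.2 (by simp only; omega)) h

private lemma tD_gh0 (X : L) {M : ℕ} (h0 : ad K L X ^ (M + 1) = 0) (g h : L) {n : ℕ}
    (hn : 2 * M < n) :
    (tD (K := K) (ad K L X) ^ n) (ad K L g * ad K L h) = 0 := by
  rw [tD_leib]
  refine Finset.sum_eq_zero ?_
  rintro ⟨i, j⟩ hij
  rw [HasAntidiagonal.mem_antidiagonal] at hij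
  simp only at hij ⊢
  rcases lt_or_ge M i with h | h
  · rw [tD_ad0 X h0 h]; simp
  · have hj : M < j := by omega
    rw [tD_ad0 X h0 hj]; simp

theorem trick_mid (X : L) (M : ℕ) (hI : Inv K (3 * M)) (hM : 1 ≤ M) (h0 : ad K L X ^ (M + 1) = 0) (g : L) :
    ad K L X ^ M * ad K L g * ad K L X ^ M = 0 := by
  have h1 := tD_2M (K := K) h0 (ad K L g)
  rw [tD_ad0 X h0 (by omega : M < 2 * M)] at h1
  have h2 : (0 : Module.End K L) = (-1 : K) ^ M • (ad K L X ^ M * ad K L g * ad K L X ^ M) :=
    tcancel (K := K) (n := 2 * M) (k := M) hI (by omega) (by omega) (by rw [smul_zero]; exact h1)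
  have h3 : ((-1 : K) ^ M) ≠ 0 := pow_ne_zero _ (by simp)
  exact (smul_eq_zero.1 h2.symm).resolve_left h3

theorem trick_sq (X : L) (M : ℕ) (hI : Inv K (3 * M)) (h0 : ad K L X ^ (M + 1) = 0) (g h : L) :
    ad K L ((ad K L X ^ M) g) * ad K L ((ad K L X ^ M) h) =
      (-1 : K) ^ M • (ad K L X ^ M * ad K L g * ad K L h * ad K L X ^ M) := by
  refine tcancel (K := K) (n := 2 * M) (k := M) hI (by omega) (by omega) ?_
  rw [← tD_gh X h0, tD_2M h0, mul_assoc (ad K L X ^ M) (ad K L g) (ad K L h)]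

theorem trick_cube (X : L) (M : ℕ) (hI : Inv K (3 * M)) (hM : 1 ≤ M) (h0 : ad K L X ^ (M + 1) = 0) (g h k : L) :
    ad K L ((ad K L X ^ M) g) * ad K L ((ad K L X ^ M) h) * ad K L ((ad K L X ^ M) k) = 0 := by
  have h1 : (tD (K := K) (ad K L X) ^ (3 * M)) (ad K L g * ad K L h * ad K L k) = 0 := by
    rw [tD_pow]
    refine Finset.sum_eq_zero ?_
    rintro ⟨i, j⟩ hij
    rw [HasAntidiagonal.mem_antidiagonal] at hij
    simp only at hij ⊢
    rcases lt_or_ge M i with h | h
    · rw [tp0 h0 h]; simp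
    · have hj : M < j := by omega
      rw [tp0 h0 hj]; simp
  rw [tD_leib, Finset.sum_eq_single (2 * M, M)] at h1
  · simp only [tD_gh X h0, tD_ad, smul_mul_assoc] at h1
    have h2 := tcancel (K := K) (n := 3 * M) (k := 2 * M) hI (by omega) (by omega) (h1.trans (smul_zero _).symm)
    exact tcancel (K := K) (n := 2 * M) (k := M) hI (by omega) (by omega) (h2.trans (smul_zero _).symm)
  · rintro ⟨i, j⟩ hij hne
    rw [HasAntidiagonal.mem_antidiagonal] at hij
    simp only at hij ⊢
    rcases lt_trichotomy i (2 * M) with h | h | h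
    · have hj : M < j := by omega
      rw [tD_ad0 X h0 hj]; simp
    · exact absurd (Prod.ext h (by simp only; omega)) hne
    · rw [tD_gh0 X h0 _ _ h]; simp
  · intro h
    exact absurd (HasAntidiagonal.mem_antidiagonal.2 (by simp only; omega)) h

theorem trick_F_ad (X : L) (M : ℕ) (hI : Inv K (3 * M)) (hM : 1 ≤ M) (h0 : ad K L X ^ (M + 1) = 0) (g : L) :
    ad K L X ^ M * ad K L ((ad K L X ^ M) g) = 0 ∧ ad K L ((ad K L X ^ M) g) * ad K L X ^ M = 0 := by
  have hmid := trick_mid X M hI hM h0 g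
  rw [← tD_ad, tD_pow]
  constructor
  · rw [Finset.mul_sum]
    refine Finset.sum_eq_zero ?_
    rintro ⟨i, j⟩ hij
    rw [HasAntidiagonal.mem_antidiagonal] at hij
    simp only at hij ⊢
    rw [mul_smul_comm, mul_smul_comm]
    rcases Nat.eq_zero_or_pos i with h | h
    · have hj : j = M := by omega
      subst hj
      rw [h, pow_zero, one_mul, ← mul_assoc, hmid]; simp
    · rw [← mul_assoc, ← mul_assoc, ← pow_add, tp0 h0 (by omega : M < M + i)]; simp
  · rw [Finset.sum_mul]
    refine Finset.sum_eq_zero ?_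
    rintro ⟨i, j⟩ hij
    rw [HasAntidiagonal.mem_antidiagonal] at hij
    simp only at hij ⊢
    rw [smul_mul_assoc, smul_mul_assoc]
    rcases Nat.eq_zero_or_pos j with h | h
    · have hj : i = M := by omega
      subst hj
      rw [h]
      simp only [pow_zero, mul_one]
      rw [hmid]; simp
    · rw [mul_assoc _ (ad K L X ^ j), ← pow_add, tp0 h0 (by omega : M < j + M)]; simp

theorem trick_E (X : L) (M : ℕ) (hI : Inv K (3 * M)) (h0 : ad K L X ^ (M + 1) = 0) (g h : L) :
    ad K L X * (ad K L ((ad K L X ^ M) g) * ad K L ((ad K L X ^ M) h)) = 0 ∧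
      ad K L ((ad K L X ^ M) g) * ad K L ((ad K L X ^ M) h) * ad K L X = 0 := by
  rw [trick_sq X M hI h0]
  constructor
  · rw [mul_smul_comm, mul_assoc, mul_assoc, ← mul_assoc (ad K L X), ← pow_succ', h0]; simp
  · rw [smul_mul_assoc, mul_assoc, ← pow_succ, h0]; simp

theorem trick_comm (X : L) (M : ℕ) (hI : Inv K (3 * M)) (h0 : ad K L X ^ (M + 1) = 0) (g : L) :
    ad K L X * ad K L ((ad K L X ^ M) g) = ad K L ((ad K L X ^ M) g) * ad K L X := by
  have h1 : (tD (K := K) (ad K L X) ^ (M + 1)) (ad K L g) = 0 := tD_ad0 X h0 (by omega) g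
  rw [pow_succ', Module.End.mul_apply, tD_ad, tD_apply] at h1
  exact sub_eq_zero.1 h1

end Pool.Agent.Helper40.TP
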