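import Pool.Agent.Helper40.TP.PathAll
import Pool.Agent.Helper40.TP.Limit
import Pool.Agent.Helper40.TF.Top
import Pool.Agent.Helper40.TF.Low
import Pool.Agent.Helper40.TP.VPoly

/-!
PROJECT TP. Port of Helper40/TF/Nil to infinite fields in which `1, .., 4 N` are invertible.
-/

set_option autoImplicit false

namespace Pool.Agent.Helper40.TP

open Pool.Agent.Helper40.TF

open Finset LieAlgebra

variable {K L ι : Type*} [Field K] [Infinite K] [LieRing L] [LieAlgebra K L]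

omit [Infinite K] in
private theorem nl_low (e : L) (q : Module.End K L)
    (hq : ad K L e ^ 2 * q * ad K L e ^ 2 = 0) :
    ((2 : K)⁻¹ • ad K L e ^ 2) * q * ((2 : K)⁻¹ • ad K L e ^ 2) = 0 := by
  rw [smul_mul_assoc, smul_mul_assoc, mul_smul_comm, hq, smul_zero, smul_zero]

theorem nil_identity (N : ℕ) [hP : Fact (Inv K (4 * N))] (hN : 1 ≤ N) (n : ℕ) (hn : 2 ≤ n) (X : ι → L) (hX : ∀ i, ad K L (X i) ^ N = 0)
    (hg : LieSubalgebra.lieSpan K L (Set.range X) = ⊤)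
    (hE : ∀ i, ERel K N n (fun i => ad K L (X i)) (ad K L (X i))) (i : ι) (M : ℕ) (hM : 2 ≤ M)
    (h0 : ad K L (X i) ^ (M + 1) = 0) (h1 : ad K L (X i) ^ M ≠ 0) :
    ∃ e : L, e ≠ 0 ∧ ad K L e ^ 3 = 0 ∧
      ∀ z : L, ad K L e ^ 2 * (ad K L z ^ 2 * ad K L e ^ 2) ^ (2 ^ n) = 0 := by
  have hMN : M + 1 ≤ N := by
    by_contra h
    exact h1 (pow_eq_zero_of_le (by omega) (hX i))
  have hI : Inv K (3 * M) := hP.out.mono (by omega)
  have hI2 : Inv K (3 * 2) := hP.out.mono (by omega)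
  obtain ⟨c, hc⟩ : ∃ c, (ad K L (X i) ^ M) c ≠ 0 := by
    by_contra h
    push Not at h
    apply h1
    ext c
    rw [h c]
    rfl
  obtain ⟨g₁, hg₁⟩ : ∃ g : L, g = -(((M - 1).factorial : K)⁻¹) • c := ⟨_, rfl⟩
  obtain ⟨g₂, hg₂⟩ : ∃ g : L, g = if M = 2 then -((4 : K)⁻¹) • ⁅c, ⁅X i, c⁆⁆ else 0 := ⟨_, rfl⟩
  have hF : (ad K L (X i) ^ M) g₁ ≠ 0 := by
    rw [hg₁, map_smul]
    exact smul_ne_zero (neg_ne_zero.2 (inv_ne_zero (hP.out.factorial _ (by omega)))) hc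
  have hlim : ∀ s : K, ERel K N n (fun i => ad K L (X i))
      (ad K L (X i + (s • (ad K L (X i) ^ M) g₁ + s ^ 2 • (ad K L (X i) ^ M) g₂))) := by
    intro s
    have h := (limit N hN n X hX i (hE i) M hM hMN h0 c (path_all N hN X hX hg c) s).2
    unfold lim at h
    rw [← hg₁, ← hg₂] at h
    exact h
  obtain ⟨δ, e, hδ1, he, hδ⟩ : ∃ (δ : ℕ) (e : L), 1 ≤ δ ∧ e ≠ 0 ∧
      ((δ = 1 ∧ (ad K L (X i) ^ M) g₂ = 0 ∧ e = (ad K L (X i) ^ M) g₁) ∨
        (δ = 2 ∧ e = (ad K L (X i) ^ M) g₂)) := by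
    by_cases h : (ad K L (X i) ^ M) g₂ = 0
    · exact ⟨1, (ad K L (X i) ^ M) g₁, le_rfl, hF, Or.inl ⟨rfl, h, rfl⟩⟩
    · exact ⟨2, (ad K L (X i) ^ M) g₂, by norm_num, h, Or.inr ⟨rfl, rfl⟩⟩
  obtain ⟨V, V', hV, hV', hd, hd', hT, hT'⟩ := vpoly N M hM hMN (X i) h0 g₁ g₂ e δ hδ
  have hcube : ad K L e ^ 3 = 0 := by
    obtain ⟨g, hg'⟩ : ∃ g, e = (ad K L (X i) ^ M) g := by
      rcases hδ with h | h
      · exact ⟨g₁, h.2.2⟩
      · exact ⟨g₂, h.2⟩
    rw [hg', pow_succ, pow_two]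
    exact trick_cube (X i) M hI (by omega) h0 g g g
  obtain ⟨T, hTd⟩ : ∃ T : Module.End K L, T = (2 : K)⁻¹ • ad K L e ^ 2 := ⟨_, rfl⟩
  rw [← hTd] at hT hT'
  -- the top coefficient
  have htop : ∀ l : List (ι × K), T * (pr K N (fun i => ad K L (X i)) (li l) * T *
      pr K N (fun i => ad K L (X i)) l * T) ^ (2 ^ (n - 1)) = 0 := by
    intro l
    refine top_coeff V V' T (2 * δ) (by omega) hd hd' hT hT' _ _ n hn ?_
    rw [← sub_eq_zero]
    apply ev_inj (K := K)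
    intro s
    have h2 := ws_map (ev K s) V V' (Polynomial.C (pr K N (fun i => ad K L (X i)) l))
      (Polynomial.C (pr K N (fun i => ad K L (X i)) (li l))) n
    have h3 := congrArg Prod.fst h2
    simp only at h3
    rw [map_sub, ← h3, ev_C, ev_C, hV, hV', hlim s l, sub_self]
  have hmid : ∀ g : L, T * ad K L g * T = 0 := by
    intro g
    rw [hTd]
    exact nl_low e _ (trick_mid e 2 hI2 (by norm_num) hcube g)
  have hsq : T * 1 * T = 0 := by
    rw [hTd]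
    refine nl_low e _ ?_
    rw [mul_one, ← pow_add]
    exact pow_eq_zero_of_le (by norm_num) hcube
  refine ⟨e, he, hcube, fun z => ?_⟩
  obtain ⟨l, m, P, P', hQP, hQP', hl, hl'⟩ := path_all N hN X hX hg z
  obtain ⟨Q, hQ⟩ := IsP.exists_poly P hQP
  obtain ⟨Q', hQ'⟩ := IsP.exists_poly P' hQP'
  obtain ⟨q, hq⟩ : ∃ q : Module.End K L, q = (2 : K)⁻¹ • ad K L z ^ 2 := ⟨_, rfl⟩
  have hevX : ∀ (t : K) (k : ℕ) (a : Module.End K L),
      ev K t (Polynomial.C a * Polynomial.X ^ k) = t ^ k • a := by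
    intro t k a
    rw [map_mul, map_pow, ev_C, ev_X, ← map_pow, Algebra.smul_def, Algebra.commutes]
  have hevQ : ∀ (t : K) (k : ℕ) (R : Polynomial (Module.End K L)),
      ev K t (R * Polynomial.X ^ k) = t ^ k • ev K t R := by
    intro t k R
    rw [map_mul, map_pow, ev_X, ← map_pow, Algebra.smul_def, Algebra.commutes]
  obtain ⟨Y, hY⟩ : ∃ Y : Polynomial (Module.End K L), Y = 1 + Polynomial.C (ad K L z) * Polynomial.X ^ 1 +
      Polynomial.C (q + ad K L m) * Polynomial.X ^ 2 + Q * Polynomial.X ^ 3 := ⟨_, rfl⟩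
  obtain ⟨Y', hY'⟩ : ∃ Y' : Polynomial (Module.End K L), Y' = 1 + Polynomial.C (-ad K L z) * Polynomial.X ^ 1 +
      Polynomial.C (q - ad K L m) * Polynomial.X ^ 2 + Q' * Polynomial.X ^ 3 := ⟨_, rfl⟩
  have hevY : ∀ t : K, ev K t Y = pr K N (fun i => ad K L (X i)) (l t) := by
    intro t
    rw [hl t, hY, map_add, map_add, map_add, map_one, hevX, hevX, hevQ, hQ, pow_one, hq]
  have hevY' : ∀ t : K, ev K t Y' = pr K N (fun i => ad K L (X i)) (li (l t)) := by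
    intro t
    rw [hl' t, hY', map_add, map_add, map_add, map_one, hevX, hevX, hevQ, hQ', pow_one, hq, smul_neg,
      ← sub_eq_add_neg]
  have hzero : Polynomial.C T * (Y' * Polynomial.C T * Y * Polynomial.C T) ^ (2 ^ (n - 1)) = 0 := by
    apply ev_inj (K := K)
    intro t
    rw [map_mul, map_pow, map_mul, map_mul, map_mul, ev_C, hevY, hevY']
    exact htop (l t)
  have c0 : Y.coeff 0 = 1 := by
    rw [hY]
    simp [Polynomial.coeff_mul_X_pow', Polynomial.coeff_one]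
  have c1 : Y.coeff 1 = ad K L z := by
    rw [hY]
    simp [Polynomial.coeff_mul_X_pow', Polynomial.coeff_one]
  have c2 : Y.coeff 2 = q + ad K L m := by
    rw [hY]
    simp [Polynomial.coeff_mul_X_pow', Polynomial.coeff_one, Polynomial.coeff_C, Polynomial.coeff_X]
  have c0' : Y'.coeff 0 = 1 := by
    rw [hY']
    simp [Polynomial.coeff_mul_X_pow', Polynomial.coeff_one]
  have c1' : Y'.coeff 1 = -ad K L z := by
    rw [hY']
    simp [Polynomial.coeff_mul_X_pow', Polynomial.coeff_one]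
  have c2' : Y'.coeff 2 = q - ad K L m := by
    rw [hY']
    simp [Polynomial.coeff_mul_X_pow', Polynomial.coeff_one, Polynomial.coeff_C, Polynomial.coeff_X]
  have hlow := low_coeff T q Y Y' (by rw [c0]; exact hsq) (by rw [c1]; exact hmid z)
    (by rw [c2, mul_add, add_mul, hmid m, add_zero]) (by rw [c0']; exact hsq)
    (by rw [c1', mul_neg, neg_mul, hmid z, neg_zero])
    (by rw [c2', mul_sub, sub_mul, hmid m, sub_zero]) (2 ^ (n - 1)) hzero
  have e1 : 2 * 2 ^ (n - 1) = 2 ^ n := by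
    obtain ⟨k, rfl⟩ : ∃ k, n = k + 1 := ⟨n - 1, by omega⟩
    rw [Nat.add_sub_cancel, pow_succ]
    ring
  rw [e1, hTd, hq, smul_mul_smul_comm, smul_pow, smul_mul_smul_comm] at hlow
  have hne : (2 : K)⁻¹ * ((2 : K)⁻¹ * (2 : K)⁻¹) ^ 2 ^ n ≠ 0 := by
    have h2 : (2 : K)⁻¹ ≠ 0 := inv_ne_zero (by exact_mod_cast hP.out 2 (by omega) (by omega))
    exact mul_ne_zero h2 (pow_ne_zero _ (mul_ne_zero h2 h2))
  exact (smul_eq_zero.1 hlow).resolve_left hne

end Pool.Agent.Helper40.TP
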